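import Pool.Agent.H72.OF.Alg

/-!
# The degrees of the two factors and the number of letters
-/

set_option autoImplicit false

namespace Pool.Agent.H47.ML

open MvPolynomial
open Pool.Agent.H35
open Pool.Agent.H35.FC (gf)

/-- If `(1 - c) / (1 - s) = F G` and `F`, `G` have together degree at most two in `y`, then `y` occurs
at most three times in each word of `C`. -/
theorem count_le_three {α : Type} [Fintype α] [DecidableEq α] {C : Finset (List α)} {y : α}
    (F G : MvPolynomial α ℤ)
    (h : 1 - gf C = (1 - ∑ x : α, (X x : MvPolynomial α ℤ)) * (F * G))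
    (hd : degreeOf y F + degreeOf y G ≤ 2) : ∀ w ∈ C, w.count y ≤ 3 := by
  have h1 : degreeOf y (1 - gf C) ≤ 3 := by
    by_cases hF : F = 0
    · rw [h, hF, zero_mul, mul_zero, degreeOf_zero]
      exact Nat.zero_le 3
    by_cases hG : G = 0
    · rw [h, hG, mul_zero, mul_zero, degreeOf_zero]
      exact Nat.zero_le 3
    have hos : (1 - ∑ x : α, (X x : MvPolynomial α ℤ)) = H72.OF.os α := rfl
    rw [h, hos, degreeOf_mul_eq (H72.OF.os_ne_zero y) (mul_ne_zero hF hG), H72.OF.degreeOf_os,
      degreeOf_mul_eq hF hG]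
    omega
  have h2 : degreeOf y (gf C) ≤ 3 := by
    have h3 : gf C = 1 - (1 - gf C) := by ring
    rw [h3]
    refine (degreeOf_sub_le y _ _).trans ?_
    rw [max_le_iff]
    refine ⟨?_, h1⟩
    rw [degreeOf_one]
    exact Nat.zero_le 3
  intro w hw
  have h3 := H72.OF.le_degreeOf y (H72.OF.coeff_gf_pos hw).ne'
  rw [H72.OF.vec_apply] at h3
  exact h3.trans h2

end Pool.Agent.H47.ML
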